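import Mathlib
import Pool.Agent.Q134.AB.F3

set_option autoImplicit false

/-!
# Long abelian squares over three letters: `k₃ ≤ 3`

There is an infinite ternary word without abelian squares of period at least three (see
`Pool.Agent.Q134.AB.F3`), and every infinite ternary word contains an abelian square.
-/

namespace Pool.Agent.Results.MP_cabd9e_co.AtMostThree

/-- The factor `w_i … w_{i+2p-1}` is an abelian square of period `p ≥ 1`. -/
def AbelianSquareAt (w : ℕ → Fin 3) (i p : ℕ) : Prop :=
  1 ≤ p ∧ ∀ a : Fin 3,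
    ((Finset.range p).filter (fun k => w (i + k) = a)).card =
    ((Finset.range p).filter (fun k => w (i + p + k) = a)).card

/-- The infinite word `w` avoids abelian squares of period at least `k`. -/
def Avoids (w : ℕ → Fin 3) (k : ℕ) : Prop :=
  ∀ i p : ℕ, k ≤ p → ¬ AbelianSquareAt w i p

/-- `k₃`: the least positive integer `k` such that abelian squares of period at least `k` are
avoidable over three letters. -/
noncomputable def k3 : ℕ := sInf {k : ℕ | 1 ≤ k ∧ ∃ w : ℕ → Fin 3, Avoids w k}

/-- Boolean test for an abelian square in a list of letters, given as an arithmetic code of the word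
of length eight -/
def dig (c i : ℕ) : ℕ := (c / 3 ^ i) % 3

/-- number of letters `a` among the digits `i, …, i + p - 1` -/
def cnt (c i p a : ℕ) : ℕ := ((List.range p).filter (fun k => dig c (i + k) == a)).length

/-- the word of length eight with code `c` has an abelian square -/
def hasSq (c : ℕ) : Bool :=
  (List.range 4).any fun p => (List.range (8 - 2 * p - 1)).any fun i =>
    cnt c i (p + 1) 0 == cnt c (i + (p + 1)) (p + 1) 0 &&
      (cnt c i (p + 1) 1 == cnt c (i + (p + 1)) (p + 1) 1 &&
        cnt c i (p + 1) 2 == cnt c (i + (p + 1)) (p + 1) 2)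

theorem all_hasSq2 : ∀ a < 81, ∀ b < 81, hasSq (81 * a + b) = true := by
  decide +kernel

theorem all_hasSq (c : ℕ) (hc : c < 6561) : hasSq c = true := by
  have h := all_hasSq2 (c / 81) (by omega) (c % 81) (by omega)
  rwa [Nat.div_add_mod] at h

/-- code of the first eight letters -/
def code (w : ℕ → Fin 3) : ℕ := ∑ i ∈ Finset.range 8, (w i).val * 3 ^ i

theorem dig_code (w : ℕ → Fin 3) (i : ℕ) (hi : i < 8) : dig (code w) i = (w i).val := by
  have h0 := (w 0).isLt
  have h1 := (w 1).isLt
  have h2 := (w 2).isLt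
  have h3 := (w 3).isLt
  have h4 := (w 4).isLt
  have h5 := (w 5).isLt
  have h6 := (w 6).isLt
  have h7 := (w 7).isLt
  unfold dig code
  simp only [Finset.sum_range_succ, Finset.sum_range_zero]
  interval_cases i <;> norm_num <;> omega

theorem code_lt (w : ℕ → Fin 3) : code w < 6561 := by
  have h0 := (w 0).isLt
  have h1 := (w 1).isLt
  have h2 := (w 2).isLt
  have h3 := (w 3).isLt
  have h4 := (w 4).isLt
  have h5 := (w 5).isLt
  have h6 := (w 6).isLt
  have h7 := (w 7).isLt
  unfold code
  simp only [Finset.sum_range_succ, Finset.sum_range_zero]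
  norm_num
  omega

theorem cnt_code (w : ℕ → Fin 3) (i p : ℕ) (h : i + p ≤ 8) (a : Fin 3) :
    cnt (code w) i p a.val = ((Finset.range p).filter (fun k => w (i + k) = a)).card := by
  unfold cnt
  have e : ∀ k ∈ List.range p, (dig (code w) (i + k) == a.val) = decide (w (i + k) = a) := by
    intro k hk
    rw [List.mem_range] at hk
    rw [dig_code w (i + k) (by omega)]
    rw [Bool.eq_iff_iff, beq_iff_eq, decide_eq_true_iff]
    exact Fin.val_inj
  rw [List.filter_congr e]
  rfl

theorem exists_square (w : ℕ → Fin 3) : ∃ i p : ℕ, AbelianSquareAt w i p := by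
  have h := all_hasSq (code w) (code_lt w)
  unfold hasSq at h
  rw [List.any_eq_true] at h
  obtain ⟨p, hp, h⟩ := h
  rw [List.any_eq_true] at h
  obtain ⟨i, hi, h⟩ := h
  rw [List.mem_range] at hp hi
  simp only [Bool.and_eq_true, beq_iff_eq] at h
  obtain ⟨h0, h1, h2⟩ := h
  refine ⟨i, p + 1, by omega, fun a => ?_⟩
  have e : ∀ a : Fin 3, cnt (code w) i (p + 1) a.val = cnt (code w) (i + (p + 1)) (p + 1) a.val := by
    intro a
    fin_cases a
    · exact h0
    · exact h1
    · exact h2
  have h3 := e a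
  rw [cnt_code w i (p + 1) (by omega) a, cnt_code w (i + (p + 1)) (p + 1) (by omega) a] at h3
  exact h3

/-- `k₃` is well defined and `2 ≤ k₃ ≤ 3`: abelian squares of period at least three are avoidable
over three letters, and abelian squares are not. -/
theorem result : (∃ w : ℕ → Fin 3, Avoids w 3) ∧ 2 ≤ k3 ∧ k3 ≤ 3 := by
  have h3 : ∃ w : ℕ → Fin 3, Avoids w 3 := by
    obtain ⟨w, hw⟩ := Pool.Agent.Q134.AB.F3.main
    refine ⟨w, fun i p hp h => hw i p hp h.2⟩
  have hmem : 3 ∈ {k : ℕ | 1 ≤ k ∧ ∃ w : ℕ → Fin 3, Avoids w k} := ⟨by norm_num, h3⟩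
  refine ⟨h3, ?_, Nat.sInf_le hmem⟩
  have h1 : k3 ∈ {k : ℕ | 1 ≤ k ∧ ∃ w : ℕ → Fin 3, Avoids w k} := Nat.sInf_mem ⟨3, hmem⟩
  obtain ⟨h4, w, hw⟩ := h1
  by_contra hcon
  have h5 : k3 = 1 := by omega
  obtain ⟨i, p, hip⟩ := exists_square w
  exact hw i p (by rw [h5]; exact hip.1) hip

end Pool.Agent.Results.MP_cabd9e_co.AtMostThree
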